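import Pool.Agent.Helper28.SP.Refute

set_option autoImplicit false

/-! Refutation certificates under hypotheses: clauses about a compatible family of trees whose
holes are given, and unit hypotheses. One more kind of clause: at the hole of `k` the label `j`
sees the colour `a` only if `v j a < v k a`. -/

namespace Pool.Agent.Helper76.TS

open Pool.Agent.Helper28.SO Pool.Agent.Helper28.Rup

theorem hole_lt {n d : ℕ} (hn : 1 ≤ n) (hd : 1 ≤ d)
    {T : (Fin d → ℕ) → Fin n → Finset (Fin d)} (v : Fin n → Fin d → ℕ) (hT : TreeFam n d T)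
    (hv : ∀ k, ∑ c, v k c = n - 1) (hvT : ∀ k, T (v k) k = Finset.univ) {k j : Fin n}
    (hkj : k ≠ j) {a b : Fin d} (hab : a ≠ b) (h : a ∈ T (v k) j) : v j a < v k a := by
  classical
  have hk := hT.pos _ (hv k) k (hvT k) a
  have hj := hT.pos _ (hv j) j (hvT j) a
  have h1 : a ∉ T (v j) k := by
    intro h2
    exact hT.swap (v k) (v j) (hv k) (hv j) j k hkj.symm a b hab h
      (by rw [hvT k]; exact Finset.mem_univ _) (by rw [hvT j]; exact Finset.mem_univ _) h2
  rw [hk, hj]
  refine Finset.card_lt_card ?_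
  rw [Finset.ssubset_iff_of_subset]
  · refine ⟨j, ?_, ?_⟩
    · rw [Finset.mem_filter]
      exact ⟨Finset.mem_univ _, hkj.symm, h⟩
    · rw [Finset.mem_filter]
      rintro ⟨_, h2, _⟩
      exact h2 rfl
  · intro l hl
    rw [Finset.mem_filter] at hl ⊢
    obtain ⟨_, hlj, hla⟩ := hl
    refine ⟨Finset.mem_univ _, ?_, ?_⟩
    · rintro rfl
      exact h1 hla
    · obtain ⟨c, hc⟩ := hT.nonempty hn hd _ (hv k) l
      by_cases hca : c = a
      · rwa [← hca]
      · exfalso
        exact hT.swap (v k) (v j) (hv k) (hv j) j l (Ne.symm hlj) a c (Ne.symm hca) h hc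
          (by rw [hvT j]; exact Finset.mem_univ _) hla

/-- at the hole of `k` the label `j` does not see the colour `a` -/
def okMono (n d : ℕ) (vc : ℕ → ℕ → ℕ) (k a j : ℕ) (L : List ℕ) : Bool :=
  eqT k (j * d + a) L && Nat.blt a d && Nat.blt k n && Nat.blt j n && !(Nat.beq k j) &&
  Nat.blt 1 d && Nat.ble (vc k a) (vc j a)

theorem okMono_sound {n d : ℕ} (hn : 1 ≤ n) (hd : 1 ≤ d)
    {T : (Fin d → ℕ) → Fin n → Finset (Fin d)} (v : Fin n → Fin d → ℕ) (hT : TreeFam n d T)
    (hv : ∀ k, ∑ c, v k c = n - 1) (hvT : ∀ k, T (v k) k = Finset.univ)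
    (vc : ℕ → ℕ → ℕ) (hvc : ∀ k a, vc k a = v ⟨k % n, Nat.mod_lt _ hn⟩ ⟨a % d, Nat.mod_lt _ hd⟩)
    {k a j : ℕ} {L : List ℕ} (h : okMono n d vc k a j L = true) (h1 : holdsV hn hd T v L) :
    False := by
  unfold okMono at h
  simp only [Bool.and_eq_true, Bool.not_eq_true'] at h
  obtain ⟨⟨⟨⟨⟨⟨a1, a2⟩, a3⟩, a4⟩, a5⟩, a6⟩, a7⟩ := h
  have b2 : a < d := by simpa [Nat.blt_eq] using a2
  have b3 : k < n := by simpa [Nat.blt_eq] using a3
  have b4 : j < n := by simpa [Nat.blt_eq] using a4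
  have b5 := Nat.ne_of_beq_eq_false a5
  have b6 : 1 < d := by simpa [Nat.blt_eq] using a6
  have b7 : vc k a ≤ vc j a := Nat.le_of_ble_eq_true a7
  rw [holdsV_T hn hd T v a1] at h1
  unfold tH toPair at h1
  have e1 : (j * d + a) / d = j := by
    rw [mul_comm, Nat.mul_add_div hd, Nat.div_eq_of_lt b2, add_zero]
  have e2 : (j * d + a) % d = a := by
    rw [mul_comm, Nat.mul_add_mod, Nat.mod_eq_of_lt b2]
  simp only [e1, e2] at h1
  rw [hvc, hvc] at b7
  simp only [Nat.mod_eq_of_lt b2, Nat.mod_eq_of_lt b3, Nat.mod_eq_of_lt b4] at h1 b7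
  have hb : ∃ b : Fin d, (⟨a, b2⟩ : Fin d) ≠ b := by
    rcases Nat.eq_zero_or_pos a with h0 | h0
    · exact ⟨⟨1, b6⟩, by intro he; rw [Fin.mk.injEq] at he; omega⟩
    · exact ⟨⟨0, hd⟩, by intro he; rw [Fin.mk.injEq] at he; omega⟩
  obtain ⟨b, hb⟩ := hb
  have := hole_lt hn hd v hT hv hvT (k := ⟨k, b3⟩) (j := ⟨j, b4⟩)
    (by intro he; rw [Fin.mk.injEq] at he; exact b5 he) hb h1
  omega

/-- the kinds of clauses -/
def okCl' (n d : ℕ) (vc : ℕ → ℕ → ℕ) (kind p1 p2 : ℕ) (js : List ℕ) (neg pos : List (List ℕ)) :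
    Bool :=
  bif Nat.beq kind 10 then
    match neg, js with
    | [L], [j] => okMono n d vc p1 p2 j L
    | _, _ => false
  else okCl n d vc kind p1 p2 js neg pos

theorem okCl'_sound {n d : ℕ} (hn : 1 ≤ n) (hd : 1 ≤ d)
    {T : (Fin d → ℕ) → Fin n → Finset (Fin d)} (v : Fin n → Fin d → ℕ) (hT : TreeFam n d T)
    (hv : ∀ k, ∑ c, v k c = n - 1) (hvT : ∀ k, T (v k) k = Finset.univ)
    (vc : ℕ → ℕ → ℕ) (hvc : ∀ k a, vc k a = v ⟨k % n, Nat.mod_lt _ hn⟩ ⟨a % d, Nat.mod_lt _ hd⟩)
    {kind p1 p2 : ℕ} {js : List ℕ} {neg pos : List (List ℕ)}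
    (h : okCl' n d vc kind p1 p2 js neg pos = true) :
    (∃ L ∈ neg, ¬ holdsV hn hd T v L) ∨ ∃ L ∈ pos, holdsV hn hd T v L := by
  unfold okCl' at h
  rcases hk : Nat.beq kind 10 with _ | _
  · rw [hk] at h
    exact okCl_sound hn hd v hT hv hvT vc hvc h
  · rw [hk] at h
    simp only [cond_true] at h
    split at h
    · left
      exact ⟨_, List.mem_cons_self, fun h1 => okMono_sound hn hd v hT hv hvT vc hvc h h1⟩
    · simp at h

/-- one input clause -/
def okIn' (n d : ℕ) (vc : ℕ → ℕ → ℕ) (vt : BT) (c K : ℕ) : Bool :=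
  match digs 4096 200 c with
  | kind :: p1 :: p2 :: a :: rest =>
    let js := rest.take a
    match rest.drop a with
    | b :: rest' =>
      let neg := rest'.take b
      let pos := rest'.drop b
      okCl' n d vc kind p1 p2 js (neg.map (fun i => digs 256 20 (vt.get i)))
        (pos.map (fun i => digs 256 20 (vt.get i))) && Nat.beq K (mkMask neg pos)
    | [] => false
  | _ => false

def chkIn' (n d : ℕ) (vc : ℕ → ℕ → ℕ) (vt db : BT) : List ℕ → ℕ → Bool
  | [], _ => true
  | c :: cs, i => force i fun i => force (db.get i) fun K =>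
    bif okIn' n d vc vt c K then chkIn' n d vc vt db cs (Nat.succ i) else false

/-- the hypotheses: the first clauses of the list are the units `hs` -/
def chkHyp (db : BT) : List ℕ → ℕ → Bool
  | [], _ => true
  | l :: ls, i => force i fun i =>
    bif Nat.beq (db.get i) (2 ^ l) then chkHyp db ls (Nat.succ i) else false

/-- the whole certificate, with the literals `hs` as hypotheses -/
def chkH (n d : ℕ) (vc : ℕ → ℕ → ℕ) (vt db : BT) (hs inp steps : List ℕ) : Bool :=
  bif chkHyp db hs 0 then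
    (bif chkIn' n d vc vt db inp hs.length then run db steps (hs.length + inp.length) else false)
  else false

theorem okIn'_sound {n d : ℕ} (hn : 1 ≤ n) (hd : 1 ≤ d)
    {T : (Fin d → ℕ) → Fin n → Finset (Fin d)} (v : Fin n → Fin d → ℕ) (hT : TreeFam n d T)
    (hv : ∀ k, ∑ c, v k c = n - 1) (hvT : ∀ k, T (v k) k = Finset.univ)
    (vc : ℕ → ℕ → ℕ) (hvc : ∀ k a, vc k a = v ⟨k % n, Nat.mod_lt _ hn⟩ ⟨a % d, Nat.mod_lt _ hd⟩)
    (vt : BT) (c K : ℕ) (h : okIn' n d vc vt c K = true) :
    ClTrue (fun i => holdsV hn hd T v (digs 256 20 (vt.get i))) K := by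
  unfold okIn' at h
  split at h
  · rename_i kind p1 p2 a rest _
    simp only at h
    split at h
    · rename_i b rest' _
      simp only [Bool.and_eq_true] at h
      obtain ⟨h1, h2⟩ := h
      have hK := Nat.eq_of_beq_eq_true h2
      rcases okCl'_sound hn hd v hT hv hvT vc hvc h1 with ⟨L, hL, h3⟩ | ⟨L, hL, h3⟩
      · obtain ⟨i, hi, rfl⟩ := List.mem_map.1 hL
        refine ⟨2 * i + 1, ?_, ?_⟩
        · rw [hK, mkMask_testBit]
          exact Or.inl ⟨i, hi, rfl⟩
        · unfold LitTrue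
          rw [if_pos (by omega), show (2 * i + 1) / 2 = i by omega]
          exact h3
      · obtain ⟨i, hi, rfl⟩ := List.mem_map.1 hL
        refine ⟨2 * i, ?_, ?_⟩
        · rw [hK, mkMask_testBit]
          exact Or.inr ⟨i, hi, rfl⟩
        · unfold LitTrue
          rw [if_neg (by omega), show 2 * i / 2 = i by omega]
          exact h3
    · simp at h
  · simp at h

theorem chkIn'_sound {n d : ℕ} (hn : 1 ≤ n) (hd : 1 ≤ d)
    {T : (Fin d → ℕ) → Fin n → Finset (Fin d)} (v : Fin n → Fin d → ℕ) (hT : TreeFam n d T)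
    (hv : ∀ k, ∑ c, v k c = n - 1) (hvT : ∀ k, T (v k) k = Finset.univ)
    (vc : ℕ → ℕ → ℕ) (hvc : ∀ k a, vc k a = v ⟨k % n, Nat.mod_lt _ hn⟩ ⟨a % d, Nat.mod_lt _ hd⟩)
    (vt db : BT) : ∀ (cs : List ℕ) (i : ℕ), chkIn' n d vc vt db cs i = true →
      ∀ j, i ≤ j → j < i + cs.length →
      ClTrue (fun i => holdsV hn hd T v (digs 256 20 (vt.get i))) (db.get j) := by
  intro cs
  induction cs with
  | nil =>
    intro i _ j h1 h2
    simp at h2
    omega
  | cons c cs ih =>
    intro i h j h1 h2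
    unfold chkIn' at h
    simp only [force_eq] at h
    rcases hb : okIn' n d vc vt c (db.get i) with _ | _
    · rw [hb] at h
      simp at h
    · rw [hb] at h
      simp only [cond_true] at h
      rcases Nat.eq_or_lt_of_le h1 with rfl | hlt
      · exact okIn'_sound hn hd v hT hv hvT vc hvc vt c _ hb
      · refine ih (Nat.succ i) h j hlt ?_
        rw [List.length_cons] at h2
        omega

theorem chkHyp_sound {α : ℕ → Prop} (db : BT) : ∀ (hs : List ℕ) (i : ℕ),
    chkHyp db hs i = true → (∀ l ∈ hs, LitTrue α l) →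
      ∀ j, i ≤ j → j < i + hs.length → ClTrue α (db.get j) := by
  intro hs
  induction hs with
  | nil =>
    intro i _ _ j h1 h2
    simp at h2
    omega
  | cons l ls ih =>
    intro i h hl j h1 h2
    unfold chkHyp at h
    simp only [force_eq] at h
    rcases hb : Nat.beq (db.get i) (2 ^ l) with _ | _
    · rw [hb] at h
      simp at h
    · rw [hb] at h
      simp only [cond_true] at h
      rcases Nat.eq_or_lt_of_le h1 with rfl | hlt
      · refine ⟨l, ?_, hl l List.mem_cons_self⟩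
        rw [Nat.eq_of_beq_eq_true hb, Nat.testBit_two_pow_self]
      · refine ih (Nat.succ i) h (fun l' h' => hl l' (List.mem_cons_of_mem _ h')) j hlt ?_
        rw [List.length_cons] at h2
        omega

/-- **Refutation under hypotheses.** -/
theorem chkH_sound {n d : ℕ} (hn : 1 ≤ n) (hd : 1 ≤ d)
    {T : (Fin d → ℕ) → Fin n → Finset (Fin d)} (v : Fin n → Fin d → ℕ) (hT : TreeFam n d T)
    (hv : ∀ k, ∑ c, v k c = n - 1) (hvT : ∀ k, T (v k) k = Finset.univ)
    (vc : ℕ → ℕ → ℕ) (hvc : ∀ k a, vc k a = v ⟨k % n, Nat.mod_lt _ hn⟩ ⟨a % d, Nat.mod_lt _ hd⟩)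
    (vt db : BT) (hs inp steps : List ℕ) (h : chkH n d vc vt db hs inp steps = true)
    (hh : ∀ l ∈ hs, LitTrue (fun i => holdsV hn hd T v (digs 256 20 (vt.get i))) l) :
    False := by
  unfold chkH at h
  rcases hc : chkHyp db hs 0 with _ | _
  · rw [hc] at h
    simp at h
  · rw [hc] at h
    simp only [cond_true] at h
    rcases hd' : chkIn' n d vc vt db inp hs.length with _ | _
    · rw [hd'] at h
      simp at h
    · rw [hd'] at h
      simp only [cond_true] at h
      refine run_sound (α := fun i => holdsV hn hd T v (digs 256 20 (vt.get i))) db steps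
        (hs.length + inp.length) ?_ h
      intro j hj
      rcases Nat.lt_or_ge j hs.length with h1 | h1
      · exact chkHyp_sound db hs 0 hc hh j (Nat.zero_le _) (by omega)
      · exact chkIn'_sound hn hd v hT hv hvT vc hvc vt db inp hs.length hd' j h1 hj

end Pool.Agent.Helper76.TS
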